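import Pool.Agent.L5helper86.RB.Base
import Pool.Agent.L5helper79.RB.A1
import Pool.Agent.H732R2.MT_B2
import Pool.Agent.H732R2.MT_B3
import Pool.Agent.H398R2.BV6
import Pool.Agent.H379R2.SWMain
import Pool.Agent.H307R2.Sg6
import Pool.Agent.H370R2.NT
import Pool.Agent.H442R2.KF.Pc

/-!
# The Bombieri-Vinogradov step (written by helper15 for helper86)
-/

set_option autoImplicit false

open Finset MeasureTheory ProbabilityTheory Filter Topology
open ArithmeticFunction (vonMangoldt)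

namespace Pool.Agent.L5helper86.RB

namespace A2h

theorem bvap' : Pool.Agent.H410R2.BVAP :=
  Pool.Agent.H732R2.bvAP (Pool.Agent.H398R2.bvTotal (Pool.Agent.H379R2.SW.siegelWalfisz
    Pool.Agent.H307R2.siegel))

/-- Mertens' sum shifted to be nonnegative -/
noncomputable def Dm (m : ℕ) : ℝ := (∑ n ∈ Icc 1 m, vonMangoldt n / n) - Real.log m + 6

lemma Dm_nonneg {m : ℕ} (hm : 1 ≤ m) : 0 ≤ Dm m := by
  have := H370.nt_mertens_lower m hm
  unfold Dm
  linarith

lemma Dm_le {m : ℕ} (hm : 1 ≤ m) : Dm m ≤ 12 := by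
  have := H370.nt_mertens_upper m hm
  unfold Dm
  linarith

lemma mert2 {a : ℕ} (ha : 2 ≤ a) {b : ℕ} (hab : a ≤ b) :
    ∑ m ∈ Ioc a b, vonMangoldt m / (m * Real.log m) ≤
      Real.log (Real.log b) - Real.log (Real.log a) + Dm b / Real.log b - Dm a / Real.log a
        + 12 * (1 / Real.log a - 1 / Real.log b) := by
  induction b, hab using Nat.le_induction with
  | base => simp
  | succ b hb ih =>
    have hb2 : (2 : ℝ) ≤ b := by exact_mod_cast (ha.trans hb)
    rw [← Finset.insert_Ioc_right_eq_Ioc_add_one (by omega), sum_insert (by simp)]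
    have hlb : 0 < Real.log b := Real.log_pos (by linarith)
    have hlb' : 0 < Real.log ((b + 1 : ℕ) : ℝ) := Real.log_pos (by push_cast; linarith)
    have hmono : Real.log b ≤ Real.log ((b + 1 : ℕ) : ℝ) :=
      Real.log_le_log (by linarith) (by push_cast; linarith)
    have h1 : vonMangoldt (b + 1) / ((b + 1 : ℕ) : ℝ) =
        Dm (b + 1) - Dm b + (Real.log ((b + 1 : ℕ) : ℝ) - Real.log b) := by
      unfold Dm
      rw [← Finset.insert_Icc_right_eq_Icc_add_one (by omega), sum_insert (by simp)]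
      ring
    have h2 : vonMangoldt (b + 1) / (((b + 1 : ℕ) : ℝ) * Real.log ((b + 1 : ℕ) : ℝ)) =
        (Dm (b + 1) - Dm b + (Real.log ((b + 1 : ℕ) : ℝ) - Real.log b)) / Real.log ((b + 1 : ℕ) : ℝ) := by
      rw [← h1, div_div]
    rw [h2]
    have h3 : (Real.log ((b + 1 : ℕ) : ℝ) - Real.log b) / Real.log ((b + 1 : ℕ) : ℝ) ≤
        Real.log (Real.log ((b + 1 : ℕ) : ℝ)) - Real.log (Real.log b) := by
      have h := Real.log_le_sub_one_of_pos (div_pos hlb hlb')
      rw [Real.log_div hlb.ne' hlb'.ne'] at h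
      have h4 : (Real.log ((b + 1 : ℕ) : ℝ) - Real.log b) / Real.log ((b + 1 : ℕ) : ℝ) =
          1 - Real.log b / Real.log ((b + 1 : ℕ) : ℝ) := by
        field_simp
      rw [h4]
      linarith
    have h5 : Dm b / Real.log b - Dm b / Real.log ((b + 1 : ℕ) : ℝ) ≤
        12 * (1 / Real.log b - 1 / Real.log ((b + 1 : ℕ) : ℝ)) := by
      have h6 : 1 / Real.log ((b + 1 : ℕ) : ℝ) ≤ 1 / Real.log b := one_div_le_one_div_of_le hlb hmono
      have h7 : Dm b / Real.log b - Dm b / Real.log ((b + 1 : ℕ) : ℝ) =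
          Dm b * (1 / Real.log b - 1 / Real.log ((b + 1 : ℕ) : ℝ)) := by ring
      rw [h7]
      exact mul_le_mul_of_nonneg_right (Dm_le (by omega)) (by linarith)
    have h8 : (Dm (b + 1) - Dm b + (Real.log ((b + 1 : ℕ) : ℝ) - Real.log b)) / Real.log ((b + 1 : ℕ) : ℝ) =
        Dm (b + 1) / Real.log ((b + 1 : ℕ) : ℝ) - Dm b / Real.log ((b + 1 : ℕ) : ℝ) +
          (Real.log ((b + 1 : ℕ) : ℝ) - Real.log b) / Real.log ((b + 1 : ℕ) : ℝ) := by ring
    rw [h8]
    linarith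

lemma mert3 {a : ℕ} (ha : 2 ≤ a) {b : ℕ} (hab : a ≤ b) :
    ∑ m ∈ Ioc a b, vonMangoldt m / (m * Real.log m) ≤
      Real.log (Real.log b) - Real.log (Real.log a) + 12 / Real.log a := by
  have h := mert2 ha hab
  have ha2 : (2 : ℝ) ≤ a := by exact_mod_cast ha
  have hb2 : (2 : ℝ) ≤ b := by exact_mod_cast (ha.trans hab)
  have hla : 0 < Real.log a := Real.log_pos (by linarith)
  have hlb : 0 < Real.log b := Real.log_pos (by linarith)
  have h1 : Dm b / Real.log b ≤ 12 / Real.log b := div_le_div_of_nonneg_right (Dm_le (by omega)) hlb.le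
  have h2 : 0 ≤ Dm a / Real.log a := div_nonneg (Dm_nonneg (by omega)) hla.le
  have h3 : 12 * (1 / Real.log a - 1 / Real.log b) = 12 / Real.log a - 12 / Real.log b := by ring
  rw [h3] at h
  linarith

/-- the weight counting `m ≡ 1 mod 2n` -/
noncomputable def wN (N : ℕ) (m : ℕ) : ℝ :=
  ∑ n ∈ op N, ((n : ℝ) - 1) * (if m % (2 * n) = 1 then vonMangoldt m else 0)

lemma mem_op {N n : ℕ} : n ∈ op N ↔ (N < n ∧ n ≤ 2 * N) ∧ n.Prime ∧ n ≠ 2 := by
  unfold op
  rw [mem_filter, mem_Ioc]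

lemma one_le_op {N n : ℕ} (h : n ∈ op N) : (1 : ℝ) ≤ n := by
  exact_mod_cast (mem_op.1 h).2.1.one_lt.le

lemma wN_nonneg (N m : ℕ) : 0 ≤ wN N m := by
  unfold wN
  refine sum_nonneg fun n hn => mul_nonneg (by linarith [one_le_op hn]) ?_
  split_ifs
  · exact ArithmeticFunction.vonMangoldt_nonneg
  · exact le_rfl

lemma log_div_exp {v : ℝ} {m : ℕ} (hm : 1 ≤ m) : Real.log (Real.exp v / m) = v - Real.log m := by
  have : (0 : ℝ) < m := by exact_mod_cast hm
  rw [Real.log_div (Real.exp_pos _).ne' this.ne', Real.log_exp]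

lemma W1_vm (v : ℝ) : W1 (fun m => vonMangoldt m) v = Pool.Agent.H410R2.psiLog1 (Real.exp v) := by
  unfold W1 Pool.Agent.H410R2.psiLog1
  refine sum_congr rfl fun m hm => ?_
  rw [log_div_exp (mem_Icc.1 hm).1]

lemma W1_wN (N : ℕ) (v : ℝ) : W1 (wN N) v =
    ∑ n ∈ op N, ((n : ℝ) - 1) * Pool.Agent.H410R2.psiLogAP (Real.exp v) (2 * n) 1 := by
  unfold W1 wN Pool.Agent.H410R2.psiLogAP
  simp_rw [sum_mul, mul_sum]
  rw [sum_comm]
  refine sum_congr rfl fun n hn => ?_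
  rw [sum_filter]
  refine sum_congr rfl fun m hm => ?_
  have h2n : 1 % (2 * n) = 1 := by
    have := (mem_op.1 hn).2.1.two_le
    exact Nat.mod_eq_of_lt (by omega)
  rw [log_div_exp (mem_Icc.1 hm).1]
  by_cases h : m % (2 * n) = 1
  · have h' : m ≡ 1 [MOD 2 * n] := by
      unfold Nat.ModEq
      rw [h, h2n]
    rw [if_pos h, if_pos h']
    ring
  · have h' : ¬ m ≡ 1 [MOD 2 * n] := by
      unfold Nat.ModEq
      rw [h2n]
      exact h
    rw [if_neg h, if_neg h']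
    ring

/-- Bombieri-Vinogradov for the weights -/
lemma bv_bound : ∃ N₁ : ℕ, ∀ N : ℕ, N₁ ≤ N → 2 ≤ N → ∀ v : ℝ, Real.log ((2 * N : ℝ) ^ 3) ≤ v →
    W1 (wN N) v ≤ (#(op N) : ℝ) * W1 (fun m => vonMangoldt m) v + 2 * N * (Real.exp v / v ^ 2) := by
  obtain ⟨X₀, hX⟩ := bvap' 2 (by norm_num) 1 le_rfl (1 / 6) (by norm_num) 2
  obtain ⟨N₁, hN₁⟩ := exists_nat_ge X₀
  refine ⟨N₁, fun N hN hN2 v hv => ?_⟩
  have hN' : (2 : ℝ) ≤ N := by exact_mod_cast hN2
  have hX3 : (2 * N : ℝ) ^ 3 ≤ Real.exp v := by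
    rw [← Real.exp_log (show (0 : ℝ) < (2 * N) ^ 3 by positivity)]
    exact Real.exp_le_exp.2 hv
  have hXv : X₀ ≤ Real.exp v := by
    have h1 : (N₁ : ℝ) ≤ N := by exact_mod_cast hN
    have h2 : (N : ℝ) ≤ (2 * N) ^ 3 := by
      have : (1 : ℝ) ≤ N ^ 2 := by nlinarith
      nlinarith [this]
    linarith
  have h := hX (Real.exp v) hXv (fun _ => 1)
  simp only [one_pow, one_mul, Real.log_exp] at h
  have hroot : (2 * N : ℝ) ≤ Real.exp v ^ ((1 : ℝ) / 2 - 1 / 6) := by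
    have h3 : ((1 : ℝ) / 2 - 1 / 6) = 1 / 3 := by norm_num
    rw [h3]
    have h4 : (2 * N : ℝ) = ((2 * N : ℝ) ^ 3) ^ ((1 : ℝ) / 3) := by
      rw [← Real.rpow_natCast, ← Real.rpow_mul (by positivity)]
      norm_num
    rw [h4]
    exact Real.rpow_le_rpow (by positivity) hX3 (by norm_num)
  have hsub : op N ⊆ (Icc 1 ⌊Real.exp v ^ ((1 : ℝ) / 2 - 1 / 6)⌋₊).filter
      (fun q => Squarefree q ∧ (1 : ℕ).Coprime (2 * q)) := by
    intro n hn
    obtain ⟨⟨h1, h2⟩, h3, h4⟩ := mem_op.1 hn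
    rw [mem_filter, mem_Icc]
    refine ⟨⟨h3.one_lt.le, Nat.le_floor (le_trans ?_ hroot)⟩, h3.squarefree, Nat.coprime_one_left _⟩
    exact_mod_cast h2
  have h5 : ∑ n ∈ op N, |Pool.Agent.H410R2.psiLogAP (Real.exp v) (2 * n) 1 -
      Pool.Agent.H410R2.psiLog1 (Real.exp v) / (Nat.totient (2 * n) : ℝ)| ≤ Real.exp v / v ^ 2 :=
    le_trans (sum_le_sum_of_subset_of_nonneg hsub fun _ _ _ => abs_nonneg _) h
  rw [W1_wN, W1_vm]
  have h6 : ∀ n ∈ op N, ((n : ℝ) - 1) * Pool.Agent.H410R2.psiLogAP (Real.exp v) (2 * n) 1 ≤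
      Pool.Agent.H410R2.psiLog1 (Real.exp v) + 2 * N * |Pool.Agent.H410R2.psiLogAP (Real.exp v) (2 * n) 1 -
      Pool.Agent.H410R2.psiLog1 (Real.exp v) / (Nat.totient (2 * n) : ℝ)| := by
    intro n hn
    obtain ⟨⟨h1, h2⟩, h3, h4⟩ := mem_op.1 hn
    have hodd : Odd n := h3.odd_of_ne_two h4
    have htot : Nat.totient (2 * n) = n - 1 := by
      rw [Nat.totient_mul (Nat.coprime_two_left.2 hodd), Nat.totient_two, one_mul, Nat.totient_prime h3]
    have hn1 : (1 : ℝ) < n := by exact_mod_cast h3.one_lt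
    have hcast : ((n - 1 : ℕ) : ℝ) = (n : ℝ) - 1 := by
      rw [Nat.cast_sub h3.one_lt.le, Nat.cast_one]
    rw [htot, hcast]
    set A := Pool.Agent.H410R2.psiLogAP (Real.exp v) (2 * n) 1
    set B := Pool.Agent.H410R2.psiLog1 (Real.exp v)
    have h7 : ((n : ℝ) - 1) * A = B + ((n : ℝ) - 1) * (A - B / ((n : ℝ) - 1)) := by
      have : (n : ℝ) - 1 ≠ 0 := by linarith
      field_simp
      ring
    rw [h7]
    have h8 : ((n : ℝ) - 1) * (A - B / ((n : ℝ) - 1)) ≤ 2 * N * |A - B / ((n : ℝ) - 1)| := by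
      have h9 : (n : ℝ) ≤ 2 * N := by exact_mod_cast h2
      calc ((n : ℝ) - 1) * (A - B / ((n : ℝ) - 1)) ≤ ((n : ℝ) - 1) * |A - B / ((n : ℝ) - 1)| :=
            mul_le_mul_of_nonneg_left (le_abs_self _) (by linarith)
        _ ≤ 2 * N * |A - B / ((n : ℝ) - 1)| := mul_le_mul_of_nonneg_right (by linarith) (abs_nonneg _)
    linarith
  refine (sum_le_sum h6).trans ?_
  rw [sum_add_distrib, sum_const, nsmul_eq_mul, ← mul_sum]
  have h10 : (0 : ℝ) ≤ 2 * N := by positivity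
  linarith [mul_le_mul_of_nonneg_left h5 h10]

/-- Chebyshev -/
lemma vm_bound : ∃ v₁ : ℝ, ∀ v : ℝ, v₁ ≤ v → W1 (fun m => vonMangoldt m) v ≤ 2 * Real.exp v := by
  have h1 : ∀ᶠ X : ℝ in atTop, Pool.Agent.H410R2.psiLog1 X / X < 2 :=
    Pool.Agent.H732R2.pntLog.eventually (gt_mem_nhds (by norm_num))
  obtain ⟨v₁, hv₁⟩ := eventually_atTop.1 (Real.tendsto_exp_atTop.eventually h1)
  refine ⟨v₁, fun v hv => ?_⟩
  rw [W1_vm]
  have := hv₁ v hv
  rw [div_lt_iff₀ (Real.exp_pos _)] at this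
  exact this.le

lemma card_op : ∃ N₁ : ℕ, ∀ N : ℕ, N₁ ≤ N → (N : ℝ) / Real.log N ≤ 2 * (#(op N) : ℝ) := by
  obtain ⟨L0, h0, h⟩ := Pool.Agent.H442R2.KF.TaskPC.large
  refine ⟨L0, fun N hN => ?_⟩
  have h1 := h N hN
  have h2 : Pool.Agent.H442R2.KF.PL N = op N := by
    ext n
    rw [mem_op]
    unfold Pool.Agent.H442R2.KF.PL
    rw [mem_filter, mem_Ioc]
    constructor
    · rintro ⟨h3, h4⟩
      exact ⟨h3, h4, by omega⟩
    · rintro ⟨h3, h4, _⟩
      exact ⟨h3, h4⟩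
  rw [h2] at h1
  have h3 : (N : ℝ) / (2 * Real.log N) = (N : ℝ) / Real.log N / 2 := by
    rw [mul_comm, div_div]
  rw [h3] at h1
  linarith

/-- the integral of the error term -/
lemma int_err {N : ℕ} {L M : ℝ} (hL : 1 ≤ L) (hLM : L ≤ M) :
    ∫ v in L..M, gg v * (2 * N * (Real.exp v / v ^ 2)) ≤ 10 * N / L := by
  have hcont : ContinuousOn (fun v : ℝ => gg v * (2 * N * (Real.exp v / v ^ 2))) (Set.uIcc L M) := by
    rw [Set.uIcc_of_le hLM]
    refine (A1.gg_cont hL).mul ?_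
    refine continuousOn_const.mul (ContinuousOn.div (by fun_prop) (by fun_prop) fun x hx => ?_)
    have : 0 < x := by linarith [hx.1]
    positivity
  have hderiv : ∀ x ∈ Set.uIcc L M, HasDerivAt (fun v : ℝ => -(10 * (N : ℝ) / v)) (10 * N / x ^ 2) x := by
    intro x hx
    rw [Set.uIcc_of_le hLM] at hx
    have hx0 : x ≠ 0 := by
      have : 0 < x := by linarith [hx.1]
      exact this.ne'
    have h := ((hasDerivAt_inv hx0).const_mul (10 * (N : ℝ))).neg
    refine (h.congr_deriv ?_).congr_of_eventuallyEq ?_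
    · field_simp
    · exact Filter.Eventually.of_forall fun y => by simp [div_eq_mul_inv]
  have hcont2 : ContinuousOn (fun v : ℝ => 10 * (N : ℝ) / v ^ 2) (Set.uIcc L M) := by
    rw [Set.uIcc_of_le hLM]
    refine ContinuousOn.div (by fun_prop) (by fun_prop) fun x hx => ?_
    have : 0 < x := by linarith [hx.1]
    positivity
  have hint : ∫ v in L..M, 10 * (N : ℝ) / v ^ 2 = -(10 * N / M) - -(10 * N / L) :=
    intervalIntegral.integral_eq_sub_of_hasDerivAt hderiv hcont2.intervalIntegrable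
  have hmono : ∫ v in L..M, gg v * (2 * N * (Real.exp v / v ^ 2)) ≤ ∫ v in L..M, 10 * (N : ℝ) / v ^ 2 := by
    refine intervalIntegral.integral_mono_on hLM hcont.intervalIntegrable hcont2.intervalIntegrable ?_
    intro v hv
    have hv1 : 1 ≤ v := by linarith [hv.1]
    have hv0 : 0 < v := by linarith
    unfold gg
    have h1 : Real.exp (-v) * (1 / v + 2 / v ^ 2 + 2 / v ^ 3) * (2 * N * (Real.exp v / v ^ 2)) =
        (Real.exp (-v) * Real.exp v) * (1 / v + 2 / v ^ 2 + 2 / v ^ 3) * (2 * N / v ^ 2) := by ring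
    rw [h1, ← Real.exp_add, neg_add_cancel, Real.exp_zero, one_mul]
    have h2 : 1 / v + 2 / v ^ 2 + 2 / v ^ 3 ≤ 5 := by
      have h3 : 1 / v ≤ 1 := by rw [div_le_one hv0]; exact hv1
      have h4 : 2 / v ^ 2 ≤ 2 := by
        rw [div_le_iff₀ (by positivity)]
        nlinarith
      have h5 : 2 / v ^ 3 ≤ 2 := by
        rw [div_le_iff₀ (by positivity)]
        have : 1 ≤ v ^ 3 := one_le_pow₀ hv1
        linarith
      linarith
    calc (1 / v + 2 / v ^ 2 + 2 / v ^ 3) * (2 * N / v ^ 2) ≤ 5 * (2 * N / v ^ 2) :=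
          mul_le_mul_of_nonneg_right h2 (by positivity)
      _ = 10 * (N : ℝ) / v ^ 2 := by ring
  refine hmono.trans ?_
  rw [hint]
  have : 0 ≤ 10 * (N : ℝ) / M := by
    have : 0 < M := by linarith
    positivity
  linarith

/-- the left side of `A2` -/
noncomputable def F (θ : ℝ) (N : ℕ) : ℝ :=
  ∑ n ∈ op N, ((n : ℝ) - 1) *
      ∑ p ∈ (pz (Real.exp (2 * θ * N))).filter (fun p => (2 * N) ^ 3 < p ∧ p % n = 1), (1 : ℝ) / p

lemma F_le_sum (θ : ℝ) (N : ℕ) :
    F θ N ≤ ∑ m ∈ Ioc ((2 * N) ^ 3) ⌊Real.exp (2 * θ * N)⌋₊, wN N m / (m * Real.log m) := by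
  unfold F wN
  simp_rw [sum_div]
  rw [sum_comm]
  refine sum_le_sum fun n hn => ?_
  obtain ⟨⟨h1, h2⟩, h3, h4⟩ := mem_op.1 hn
  have hodd : Odd n := h3.odd_of_ne_two h4
  rw [mul_sum]
  have hsub : (pz (Real.exp (2 * θ * N))).filter (fun p => (2 * N) ^ 3 < p ∧ p % n = 1) ⊆
      Ioc ((2 * N) ^ 3) ⌊Real.exp (2 * θ * N)⌋₊ := by
    intro p hp
    rw [mem_filter, mem_pz] at hp
    rw [mem_Ioc]
    exact ⟨hp.2.1, Nat.le_floor hp.1.2⟩
  refine le_trans (le_of_eq ?_) (sum_le_sum_of_subset_of_nonneg hsub ?_)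
  · refine sum_congr rfl fun p hp => ?_
    rw [mem_filter, mem_pz] at hp
    obtain ⟨⟨hpp, _⟩, hp1, hp2⟩ := hp
    have hpodd : p % 2 = 1 := by
      rcases hpp.eq_two_or_odd with h | h
      · exfalso
        have h5 : 1 ≤ N := by omega
        have h6 : (2 * N) ^ 3 ≥ 2 ^ 3 := Nat.pow_le_pow_left (by omega) 3
        omega
      · exact h
    have hmod : p % (2 * n) = 1 := by
      have hcop : Nat.Coprime 2 n := Nat.coprime_two_left.2 hodd
      have h5 : p ≡ 1 [MOD 2] := by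
        unfold Nat.ModEq
        rw [hpodd]
      have h6 : p ≡ 1 [MOD n] := by
        unfold Nat.ModEq
        rw [hp2, Nat.mod_eq_of_lt h3.one_lt]
      have h7 := (Nat.modEq_and_modEq_iff_modEq_mul hcop).1 ⟨h5, h6⟩
      unfold Nat.ModEq at h7
      rw [h7]
      exact Nat.mod_eq_of_lt (by have := h3.two_le; omega)
    rw [if_pos hmod, ArithmeticFunction.vonMangoldt_apply_prime hpp]
    have hlog : 0 < Real.log p := Real.log_pos (by exact_mod_cast hpp.one_lt)
    have hp0 : (0 : ℝ) < p := by exact_mod_cast hpp.pos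
    field_simp
  · intro m _ _
    refine div_nonneg (mul_nonneg (by linarith [one_le_op hn]) ?_) ?_
    · split_ifs
      · exact ArithmeticFunction.vonMangoldt_nonneg
      · exact le_rfl
    · exact mul_nonneg (Nat.cast_nonneg _) (Real.log_natCast_nonneg _)

lemma large_N {θ : ℝ} (hθ : 0 < θ) : ∃ N₂ : ℕ, ∀ N : ℕ, N₂ ≤ N → 2 ≤ N →
    F θ N ≤ (#(op N) : ℝ) * (Real.log (N / Real.log N) + (|Real.log θ| + 200)) := by
  obtain ⟨N₁, hbv⟩ := bv_bound
  obtain ⟨v₁, hvm⟩ := vm_bound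
  obtain ⟨N₃, hcard⟩ := card_op
  obtain ⟨N₄, hN₄⟩ := exists_nat_ge (Real.exp v₁)
  refine ⟨max N₁ (max N₃ N₄), fun N hN hN2 => ?_⟩
  have hNN₁ : N₁ ≤ N := le_trans (le_max_left _ _) hN
  have hNN₃ : N₃ ≤ N := le_trans (le_trans (le_max_left _ _) (le_max_right _ _)) hN
  have hNN₄ : N₄ ≤ N := le_trans (le_trans (le_max_right _ _) (le_max_right _ _)) hN
  have hN' : (2 : ℝ) ≤ N := by exact_mod_cast hN2
  have hlogN : 0 < Real.log N := Real.log_pos (by linarith)
  have hratio : 0 ≤ Real.log (N / Real.log N) := by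
    apply Real.log_nonneg
    rw [one_le_div hlogN]
    linarith [Real.log_le_sub_one_of_pos (show (0 : ℝ) < N by linarith)]
  set L : ℝ := Real.log ((2 * N : ℝ) ^ 3) with hLdef
  set M : ℝ := 2 * θ * N with hMdef
  have hexpL : Real.exp L = (2 * N : ℝ) ^ 3 := Real.exp_log (by positivity)
  have hfl : ⌊Real.exp L⌋₊ = (2 * N) ^ 3 := by
    rw [hexpL]
    have : ((2 * N : ℝ) ^ 3) = (((2 * N) ^ 3 : ℕ) : ℝ) := by push_cast; ring
    rw [this, Nat.floor_natCast]
  have hLeq : L = 3 * Real.log (2 * N) := by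
    rw [hLdef, Real.log_pow]
    norm_num
  have hlog2N : Real.log N ≤ Real.log (2 * N) := Real.log_le_log (by linarith) (by linarith)
  have hL1 : 1 ≤ L := by
    have h1 : Real.exp 1 ≤ Real.exp L := by
      rw [hexpL]
      have := Real.exp_one_lt_d9
      have h2 : (4 : ℝ) ≤ 2 * N := by linarith
      have h3 : (4 : ℝ) ^ 3 ≤ (2 * N) ^ 3 := pow_le_pow_left₀ (by norm_num) h2 3
      linarith
    exact Real.exp_le_exp.1 h1
  have hL0 : 0 < L := by linarith
  have hLlogN : Real.log N ≤ L := by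
    rw [hLeq]
    have : 0 ≤ Real.log (2 * N) := by linarith
    linarith
  have hNL : (N : ℝ) / L ≤ 2 * (#(op N) : ℝ) :=
    (div_le_div_of_nonneg_left (by linarith) hlogN hLlogN).trans (hcard N hNN₃)
  have hc0 : (0 : ℝ) ≤ #(op N) := Nat.cast_nonneg _
  by_cases hLM : L ≤ M
  swap
  · -- the left side is empty
    have h1 : F θ N = 0 := by
      unfold F
      refine sum_eq_zero fun n hn => ?_
      rw [Finset.sum_eq_zero, mul_zero]
      intro p hp
      exfalso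
      rw [mem_filter, mem_pz] at hp
      have h2 : ((2 * N : ℝ)) ^ 3 < p := by exact_mod_cast hp.2.1
      rw [← hexpL] at h2
      have h3 := hp.1.2
      have h4 : Real.exp M ≤ Real.exp L := Real.exp_le_exp.2 (le_of_lt (not_le.1 hLM))
      rw [← hMdef] at h3
      linarith
    rw [h1]
    apply mul_nonneg hc0
    have := abs_nonneg (Real.log θ)
    linarith
  have hM0 : 0 < M := by linarith
  have hv₁ : ∀ v, L ≤ v → v₁ ≤ v := by
    intro v hv
    have h1 : Real.exp v₁ ≤ Real.exp L := by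
      rw [hexpL]
      have h2 : (N₄ : ℝ) ≤ N := by exact_mod_cast hNN₄
      have h3 : (N : ℝ) ≤ (2 * N) ^ 3 := by
        have : (1 : ℝ) ≤ N ^ 2 := by nlinarith
        nlinarith [this]
      linarith
    exact (Real.exp_le_exp.1 h1).trans hv
  have hS : F θ N ≤ ∑ m ∈ Ioc ⌊Real.exp L⌋₊ ⌊Real.exp M⌋₊, wN N m / (m * Real.log m) := by
    rw [hfl]
    exact F_le_sum θ N
  have hU := A1_upper (wN N) (wN_nonneg N) L M hL1 hLM
  have hLo := A1_lower (fun m => vonMangoldt m) (fun m => ArithmeticFunction.vonMangoldt_nonneg) L M hL1 hLM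
  have hBc : ContinuousOn (fun v : ℝ => 2 * (N : ℝ) * (Real.exp v / v ^ 2)) (Set.Icc L M) := by
    refine continuousOn_const.mul (ContinuousOn.div (by fun_prop) (by fun_prop) fun x hx => ?_)
    have : 0 < x := by linarith [hx.1]
    positivity
  have hI := A1_int (wN N) (fun m => vonMangoldt m) (#(op N) : ℝ) L M hL1 hLM
    (fun v : ℝ => 2 * (N : ℝ) * (Real.exp v / v ^ 2)) hBc (fun v hv _ => hbv N hNN₁ hN2 v hv)
  have hE := int_err (N := N) hL1 hLM
  -- the two boundary terms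
  have hexp1 : Real.exp 1 < 3 := by linarith [Real.exp_one_lt_d9]
  have hb1 : 4 * Real.exp (-L) / L * W1 (fun m => vonMangoldt m) (L + 1) ≤ 24 := by
    have h1 := hvm (L + 1) (hv₁ _ (by linarith))
    have h2 : 4 * Real.exp (-L) / L * W1 (fun m => vonMangoldt m) (L + 1) ≤
        4 * Real.exp (-L) / L * (2 * Real.exp (L + 1)) := mul_le_mul_of_nonneg_left h1 (by positivity)
    have h3 : 4 * Real.exp (-L) / L * (2 * Real.exp (L + 1)) = 8 * (Real.exp (-L) * Real.exp (L + 1)) / L := by ring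
    rw [h3, ← Real.exp_add, show -L + (L + 1) = 1 by ring] at h2
    refine h2.trans ?_
    rw [div_le_iff₀ hL0]
    nlinarith
  have hb2 : 4 * Real.exp (-M) / M * W1 (wN N) (M + 1) ≤ 24 * (#(op N) : ℝ) + 24 * (N / L) := by
    have h1 := hbv N hNN₁ hN2 (M + 1) (by linarith)
    have h1' := hvm (M + 1) (hv₁ _ (by linarith))
    have h4 : W1 (wN N) (M + 1) ≤ (#(op N) : ℝ) * (2 * Real.exp (M + 1)) + 2 * N * (Real.exp (M + 1) / (M + 1) ^ 2) :=
      h1.trans (by linarith [mul_le_mul_of_nonneg_left h1' hc0])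
    have h2 : 4 * Real.exp (-M) / M * W1 (wN N) (M + 1) ≤
        4 * Real.exp (-M) / M * ((#(op N) : ℝ) * (2 * Real.exp (M + 1)) + 2 * N * (Real.exp (M + 1) / (M + 1) ^ 2)) :=
      mul_le_mul_of_nonneg_left h4 (by positivity)
    have h3 : 4 * Real.exp (-M) / M * ((#(op N) : ℝ) * (2 * Real.exp (M + 1)) + 2 * N * (Real.exp (M + 1) / (M + 1) ^ 2)) =
        (Real.exp (-M) * Real.exp (M + 1)) * (8 * (#(op N) : ℝ) / M + 8 * N / (M * (M + 1) ^ 2)) := by
      have : M ≠ 0 := hM0.ne'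
      have : M + 1 ≠ 0 := by linarith
      field_simp
      ring
    rw [h3, ← Real.exp_add, show -M + (M + 1) = 1 by ring] at h2
    refine h2.trans ?_
    have h5 : 8 * (#(op N) : ℝ) / M ≤ 8 * (#(op N) : ℝ) := by
      rw [div_le_iff₀ hM0]
      have : 1 ≤ M := by linarith
      nlinarith
    have h6 : 8 * (N : ℝ) / (M * (M + 1) ^ 2) ≤ 8 * (N / L) := by
      rw [show 8 * ((N : ℝ) / L) = 8 * (N : ℝ) / L by ring]
      apply div_le_div_of_nonneg_left (by positivity) hL0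
      have : 1 ≤ (M + 1) ^ 2 := by nlinarith
      nlinarith
    have h7 : 0 ≤ 8 * (#(op N) : ℝ) / M + 8 * N / (M * (M + 1) ^ 2) := by positivity
    have h8 : 0 ≤ (N : ℝ) / L := by positivity
    calc Real.exp 1 * (8 * (#(op N) : ℝ) / M + 8 * N / (M * (M + 1) ^ 2)) ≤
        3 * (8 * (#(op N) : ℝ) / M + 8 * N / (M * (M + 1) ^ 2)) := mul_le_mul_of_nonneg_right hexp1.le h7
      _ ≤ 24 * (#(op N) : ℝ) + 24 * (N / L) := by linarith
  -- Mertens
  have hflM : (2 * N) ^ 3 ≤ ⌊Real.exp M⌋₊ := by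
    rw [← hfl]
    exact Nat.floor_le_floor (Real.exp_le_exp.2 hLM)
  have h8le : 2 ≤ (2 * N) ^ 3 := by
    have : 2 ^ 3 ≤ (2 * N) ^ 3 := Nat.pow_le_pow_left (by omega) 3
    omega
  have hMe := mert3 h8le hflM
  have hloga : Real.log (((2 * N) ^ 3 : ℕ) : ℝ) = L := by
    rw [hLdef]
    push_cast
    ring_nf
  rw [hloga] at hMe
  have hlogb : Real.log (Real.log ⌊Real.exp M⌋₊) ≤ Real.log M := by
    have h1 : (2 : ℝ) ≤ ⌊Real.exp M⌋₊ := by exact_mod_cast h8le.trans hflM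
    apply Real.log_le_log (Real.log_pos (by linarith))
    have h2 := Real.log_le_log (show (0 : ℝ) < ⌊Real.exp M⌋₊ by linarith) (Nat.floor_le (Real.exp_pos M).le)
    rw [Real.log_exp] at h2
    exact h2
  have h12 : 12 / L ≤ 12 := by
    rw [div_le_iff₀ hL0]
    linarith
  have hMe2 : ∑ m ∈ Ioc ⌊Real.exp L⌋₊ ⌊Real.exp M⌋₊, vonMangoldt m / (m * Real.log m) ≤
      Real.log M - Real.log L + 12 := by
    rw [hfl]
    linarith
  -- the logarithm of the ratio
  have hML : Real.log M - Real.log L ≤ |Real.log θ| + Real.log (N / Real.log N) := by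
    rw [← Real.log_div hM0.ne' hL0.ne']
    have h1 : M / L ≤ θ * (N / Real.log N) := by
      rw [div_le_iff₀ hL0, hMdef]
      have h2 : θ * (N / Real.log N) * L = θ * N * (L / Real.log N) := by ring
      rw [h2]
      have h3 : 2 ≤ L / Real.log N := by
        rw [le_div_iff₀ hlogN, hLeq]
        linarith
      have h4 : 0 ≤ θ * N := by positivity
      nlinarith [mul_le_mul_of_nonneg_left h3 h4]
    have h5 : Real.log (M / L) ≤ Real.log (θ * (N / Real.log N)) := Real.log_le_log (by positivity) h1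
    rw [Real.log_mul hθ.ne' (by positivity)] at h5
    linarith [le_abs_self (Real.log θ)]
  -- assembly
  have hG' : ∫ v in L..M, gg v * W1 (fun m => vonMangoldt m) v ≤ |Real.log θ| + Real.log (N / Real.log N) + 36 := by
    linarith
  have hG : (∫ v in L..M, gg v * W1 (wN N) v) ≤
      (#(op N) : ℝ) * (|Real.log θ| + Real.log (N / Real.log N) + 36) + 10 * (N / L) := by
    have h1 := mul_le_mul_of_nonneg_left hG' hc0
    have h2 : 10 * (N : ℝ) / L = 10 * (N / L) := by ring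
    rw [h2] at hE
    linarith
  have hfin : F θ N ≤ (#(op N) : ℝ) * (|Real.log θ| + Real.log (N / Real.log N) + 36) + 10 * (N / L) +
      (24 * (#(op N) : ℝ) + 24 * (N / L)) := by linarith
  refine hfin.trans ?_
  nlinarith

end A2h

open A2h in
theorem A2 (θ : ℝ) (hθ : 0 < θ) : ∃ C : ℝ, 0 < C ∧ ∀ N : ℕ, 2 ≤ N →
    ∑ n ∈ op N, ((n : ℝ) - 1) *
      ∑ p ∈ (pz (Real.exp (2 * θ * N))).filter (fun p => (2 * N) ^ 3 < p ∧ p % n = 1), (1 : ℝ) / p ≤
      (#(op N) : ℝ) * (Real.log (N / Real.log N) + C) := by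
  obtain ⟨N₂, hlarge⟩ := large_N hθ
  have hFn : ∀ N, 0 ≤ F θ N := by
    intro N
    unfold F
    refine sum_nonneg fun n hn => mul_nonneg (by linarith [one_le_op hn]) ?_
    exact sum_nonneg fun p _ => by positivity
  have hsum : 0 ≤ ∑ N ∈ range N₂, F θ N := sum_nonneg fun N _ => hFn N
  refine ⟨(|Real.log θ| + 200) + ∑ N ∈ range N₂, F θ N, by positivity, fun N hN2 => ?_⟩
  change F θ N ≤ _
  have hN' : (2 : ℝ) ≤ N := by exact_mod_cast hN2
  have hlogN : 0 < Real.log N := Real.log_pos (by linarith)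
  have hratio : 0 ≤ Real.log (N / Real.log N) := by
    apply Real.log_nonneg
    rw [one_le_div hlogN]
    linarith [Real.log_le_sub_one_of_pos (show (0 : ℝ) < N by linarith)]
  have hc0 : (0 : ℝ) ≤ #(op N) := Nat.cast_nonneg _
  by_cases hN : N₂ ≤ N
  · refine (hlarge N hN hN2).trans (mul_le_mul_of_nonneg_left (by linarith) hc0)
  · have h1 : F θ N ≤ ∑ N ∈ range N₂, F θ N :=
      single_le_sum (f := fun N => F θ N) (fun N _ => hFn N) (mem_range.2 (not_le.1 hN))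
    obtain ⟨p, hp, hp1, hp2⟩ := Nat.exists_prime_lt_and_le_two_mul N (by omega)
    have h2 : p ∈ op N := mem_op.2 ⟨⟨hp1, hp2⟩, hp, by omega⟩
    have h3 : (1 : ℝ) ≤ #(op N) := by exact_mod_cast Finset.card_pos.2 ⟨p, h2⟩
    have h4 : 0 ≤ |Real.log θ| := abs_nonneg _
    nlinarith

end Pool.Agent.L5helper86.RB
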