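import Pool.Agent.L5helper15.RB.A2
import Pool.Agent.L5helper22.RB.Mn
import Pool.Agent.L5helper79.RB.Pp

/-!
# The typical lower bound for the sums over primes `p ≡ 1` modulo `n` (written by helper15 for helper86)
-/

set_option autoImplicit false

open Finset MeasureTheory ProbabilityTheory Filter Topology
open ArithmeticFunction (vonMangoldt)

namespace Pool.Agent.L5helper86.RB

namespace Vh

open Pool.Agent.H410R2 (psiLogAP psiLog1)
open A2h

/-- the error term of the progression `1` modulo `2 n` -/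
noncomputable def err (n : ℕ) (v : ℝ) : ℝ :=
  |psiLogAP (Real.exp v) (2 * n) 1 - psiLog1 (Real.exp v) / (Nat.totient (2 * n) : ℝ)|

lemma err_nonneg (n : ℕ) (v : ℝ) : 0 ≤ err n v := abs_nonneg _

/-- the von Mangoldt function on the progression -/
noncomputable def va (n m : ℕ) : ℝ := if m % (2 * n) = 1 then vonMangoldt m else 0

lemma va_nonneg (n m : ℕ) : 0 ≤ va n m := by
  unfold va
  split_ifs
  · exact ArithmeticFunction.vonMangoldt_nonneg
  · exact le_rfl

lemma W1_va {n : ℕ} (hn : 1 ≤ n) (v : ℝ) : W1 (va n) v = psiLogAP (Real.exp v) (2 * n) 1 := by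
  unfold W1 va psiLogAP
  rw [sum_filter]
  refine sum_congr rfl fun m hm => ?_
  have h2n : 1 % (2 * n) = 1 := Nat.mod_eq_of_lt (by omega)
  rw [log_div_exp (mem_Icc.1 hm).1]
  by_cases h : m % (2 * n) = 1
  · have h' : m ≡ 1 [MOD 2 * n] := by
      unfold Nat.ModEq
      rw [h, h2n]
    rw [if_pos h, if_pos h']
  · have h' : ¬ m ≡ 1 [MOD 2 * n] := by
      unfold Nat.ModEq
      rw [h2n]
      exact h
    rw [if_neg h, if_neg h']
    ring

lemma W1_cont (w : ℕ → ℝ) (L M : ℝ) : ContinuousOn (W1 w) (Set.Icc L M) :=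
  (A1.WK_cont w ⌊Real.exp M⌋₊).continuousOn.congr fun _ hv => A1.W1_eq w hv.2

lemma err_cont {n : ℕ} (hn : 1 ≤ n) (L M : ℝ) : ContinuousOn (err n) (Set.Icc L M) := by
  unfold err
  have h1 : ContinuousOn (fun v => psiLogAP (Real.exp v) (2 * n) 1) (Set.Icc L M) := by
    have h := W1_cont (va n) L M
    exact h.congr fun v _ => (W1_va hn v).symm
  have h2 : ContinuousOn (fun v => psiLog1 (Real.exp v)) (Set.Icc L M) := by
    have h := W1_cont (fun m => vonMangoldt m) L M
    exact h.congr fun v _ => (W1_vm v).symm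
  exact (h1.sub (h2.div_const _)).abs

/-- Bombieri-Vinogradov -/
lemma bv3 : ∃ N₁ : ℕ, ∀ N : ℕ, N₁ ≤ N → 2 ≤ N → ∀ v : ℝ, Real.log ((2 * N : ℝ) ^ 3) ≤ v →
    ∑ n ∈ op N, err n v ≤ Real.exp v / v ^ 3 := by
  obtain ⟨X₀, hX⟩ := bvap' 2 (by norm_num) 1 le_rfl (1 / 6) (by norm_num) 3
  obtain ⟨N₁, hN₁⟩ := exists_nat_ge X₀
  refine ⟨N₁, fun N hN hN2 v hv => ?_⟩
  have hN' : (2 : ℝ) ≤ N := by exact_mod_cast hN2
  have hX3 : (2 * N : ℝ) ^ 3 ≤ Real.exp v := by
    rw [← Real.exp_log (show (0 : ℝ) < (2 * N) ^ 3 by positivity)]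
    exact Real.exp_le_exp.2 hv
  have hXv : X₀ ≤ Real.exp v := by
    have h1 : (N₁ : ℝ) ≤ N := by exact_mod_cast hN
    have h2 : (N : ℝ) ≤ (2 * N) ^ 3 := by
      have : (1 : ℝ) ≤ N ^ 2 := by nlinarith
      nlinarith [this]
    linarith
  have h := hX (Real.exp v) hXv (fun _ => 1)
  simp only [one_pow, one_mul, Real.log_exp] at h
  have hroot : (2 * N : ℝ) ≤ Real.exp v ^ ((1 : ℝ) / 2 - 1 / 6) := by
    have h3 : ((1 : ℝ) / 2 - 1 / 6) = 1 / 3 := by norm_num
    rw [h3]
    have h4 : (2 * N : ℝ) = ((2 * N : ℝ) ^ 3) ^ ((1 : ℝ) / 3) := by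
      rw [← Real.rpow_natCast, ← Real.rpow_mul (by positivity)]
      norm_num
    rw [h4]
    exact Real.rpow_le_rpow (by positivity) hX3 (by norm_num)
  have hsub : op N ⊆ (Icc 1 ⌊Real.exp v ^ ((1 : ℝ) / 2 - 1 / 6)⌋₊).filter
      (fun q => Squarefree q ∧ (1 : ℕ).Coprime (2 * q)) := by
    intro n hn
    obtain ⟨⟨h1, h2⟩, h3, h4⟩ := mem_op.1 hn
    rw [mem_filter, mem_Icc]
    refine ⟨⟨h3.one_lt.le, Nat.le_floor (le_trans ?_ hroot)⟩, h3.squarefree, Nat.coprime_one_left _⟩
    exact_mod_cast h2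
  exact le_trans (sum_le_sum_of_subset_of_nonneg hsub fun _ _ _ => abs_nonneg _) h

/-- the integral of the error term -/
lemma int_err3 {L M : ℝ} (hL : 1 ≤ L) (hLM : L ≤ M) :
    ∫ v in L..M, gg v * (Real.exp v / v ^ 3) ≤ 5 / 2 / L ^ 2 := by
  have hpos : ∀ x ∈ Set.Icc L M, 0 < x := fun x hx => by linarith [hx.1]
  have hcont : ContinuousOn (fun v : ℝ => gg v * (Real.exp v / v ^ 3)) (Set.uIcc L M) := by
    rw [Set.uIcc_of_le hLM]
    refine (A1.gg_cont hL).mul (ContinuousOn.div (by fun_prop) (by fun_prop) fun x hx => ?_)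
    have := hpos x hx
    positivity
  have hderiv : ∀ x ∈ Set.uIcc L M, HasDerivAt (fun v : ℝ => -(5 / 2 * (v ^ 2)⁻¹)) (5 / x ^ 3) x := by
    intro x hx
    rw [Set.uIcc_of_le hLM] at hx
    have hx0 : x ≠ 0 := (hpos x hx).ne'
    have h := (((hasDerivAt_pow 2 x).inv (pow_ne_zero 2 hx0)).const_mul (5 / 2 : ℝ)).neg
    refine h.congr_deriv ?_
    field_simp
    norm_num
  have hcont2 : ContinuousOn (fun v : ℝ => 5 / v ^ 3) (Set.uIcc L M) := by
    rw [Set.uIcc_of_le hLM]
    refine ContinuousOn.div (by fun_prop) (by fun_prop) fun x hx => ?_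
    have := hpos x hx
    positivity
  have hint : ∫ v in L..M, 5 / v ^ 3 = -(5 / 2 * (M ^ 2)⁻¹) - -(5 / 2 * (L ^ 2)⁻¹) :=
    intervalIntegral.integral_eq_sub_of_hasDerivAt hderiv hcont2.intervalIntegrable
  have hmono : ∫ v in L..M, gg v * (Real.exp v / v ^ 3) ≤ ∫ v in L..M, 5 / v ^ 3 := by
    refine intervalIntegral.integral_mono_on hLM hcont.intervalIntegrable hcont2.intervalIntegrable ?_
    intro v hv
    have hv1 : 1 ≤ v := by linarith [hv.1]
    have hv0 : 0 < v := by linarith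
    unfold gg
    have h1 : Real.exp (-v) * (1 / v + 2 / v ^ 2 + 2 / v ^ 3) * (Real.exp v / v ^ 3) =
        (Real.exp (-v) * Real.exp v) * (1 / v + 2 / v ^ 2 + 2 / v ^ 3) * (1 / v ^ 3) := by ring
    rw [h1, ← Real.exp_add, neg_add_cancel, Real.exp_zero, one_mul]
    have h2 : 1 / v + 2 / v ^ 2 + 2 / v ^ 3 ≤ 5 := by
      have h3 : 1 / v ≤ 1 := by rw [div_le_one hv0]; exact hv1
      have h4 : 2 / v ^ 2 ≤ 2 := by
        rw [div_le_iff₀ (by positivity)]
        nlinarith
      have h5 : 2 / v ^ 3 ≤ 2 := by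
        rw [div_le_iff₀ (by positivity)]
        have : 1 ≤ v ^ 3 := one_le_pow₀ hv1
        linarith
      linarith
    calc (1 / v + 2 / v ^ 2 + 2 / v ^ 3) * (1 / v ^ 3) ≤ 5 * (1 / v ^ 3) :=
          mul_le_mul_of_nonneg_right h2 (by positivity)
      _ = 5 / v ^ 3 := by ring
  refine hmono.trans ?_
  rw [hint]
  have : 0 ≤ 5 / 2 * (M ^ 2)⁻¹ := by positivity
  have h2 : 5 / 2 / L ^ 2 = 5 / 2 * (L ^ 2)⁻¹ := by rw [div_eq_mul_inv]
  linarith

/-- the measure of badness of `n` at the scale `L` -/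
noncomputable def DD (θ : ℝ) (N n : ℕ) (L : ℝ) : ℝ :=
  |((n : ℝ) - 1) * ∫ v in L..(θ * N), gg v * err n v| +
    |4 * ((n : ℝ) - 1) * (Real.exp (-L) / L) * err n (L + 1)|

end Vh

open Vh A2h in
theorem scales (θ : ℝ) (hθ : 0 < θ) : ∃ C : ℝ, 0 < C ∧ ∃ D : ℕ → ℕ → ℝ → ℝ, (∀ N n L, 0 ≤ D N n L) ∧
    ∀ᶠ N : ℕ in atTop, ∀ L : ℝ, 3 * Real.log (2 * N) ≤ L → L ≤ θ * N →
      (∑ n ∈ op N, D N n L ≤ C * N / L ^ 2) ∧
      ∀ n ∈ op N, D N n L ≤ 1 → Real.log (θ * N / L) - C ≤
        ∑ p ∈ (pz (Real.exp (θ * N))).filter (fun p => p % n = 1), ((n : ℝ) - 1) / p := by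
  obtain ⟨N₁, hbv⟩ := bv3
  obtain ⟨v₁, hvm⟩ := vm_bound
  obtain ⟨Cm, v₂, hCm, hv₂, hmain⟩ := mainterm
  obtain ⟨Cp, hCp, hpp⟩ := primepow
  refine ⟨Cm + Cp + 30, by positivity, DD θ, fun N n L => by unfold DD; positivity, ?_⟩
  have hev : ∀ᶠ N : ℕ in atTop, max (max v₁ v₂) 1 ≤ Real.log N :=
    (Real.tendsto_log_atTop.comp tendsto_natCast_atTop_atTop).eventually_ge_atTop _
  filter_upwards [hev, eventually_ge_atTop N₁, eventually_ge_atTop 2] with N hlogN hNN₁ hN2 L hL hLM
  set M : ℝ := θ * N with hM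
  have hN' : (2 : ℝ) ≤ N := by exact_mod_cast hN2
  have hlog1 : 1 ≤ Real.log N := (le_max_right _ _).trans hlogN
  have hlog2N : Real.log N ≤ Real.log (2 * N) := Real.log_le_log (by linarith) (by linarith)
  have hLlog : Real.log N ≤ L := by linarith
  have hL1 : 1 ≤ L := hlog1.trans hLlog
  have hL0 : 0 < L := by linarith
  have hM0 : 0 < M := by linarith
  have hLv₁ : v₁ ≤ L := ((le_max_left _ _).trans (le_max_left _ _)).trans (hlogN.trans hLlog)
  have hLv₂ : v₂ ≤ L := ((le_max_right _ _).trans (le_max_left _ _)).trans (hlogN.trans hLlog)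
  have hL3 : Real.log ((2 * N : ℝ) ^ 3) ≤ L := by
    rw [Real.log_pow]
    push_cast
    exact hL
  have hbvv : ∀ v, L ≤ v → ∑ n ∈ op N, err n v ≤ Real.exp v / v ^ 3 := fun v hv =>
    hbv N hNN₁ hN2 v (hL3.trans hv)
  have hexp1 : Real.exp 1 < 3 := by linarith [Real.exp_one_lt_d9]
  have hcont : ∀ n ∈ op N, ContinuousOn (fun v => gg v * err n v) (Set.uIcc L M) := by
    intro n hn
    rw [Set.uIcc_of_le hLM]
    exact (A1.gg_cont hL1).mul (err_cont (mem_op.1 hn).2.1.one_lt.le L M)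
  have hint : ∀ n ∈ op N, IntervalIntegrable (fun v => gg v * err n v) volume L M := fun n hn =>
    (hcont n hn).intervalIntegrable
  have hIn : ∀ n, 0 ≤ ∫ v in L..M, gg v * err n v := by
    intro n
    apply intervalIntegral.integral_nonneg hLM
    intro v hv
    exact mul_nonneg (A1.gg_nonneg (by linarith [hv.1])) (err_nonneg n v)
  refine ⟨?_, ?_⟩
  · -- the sum over `n`
    have h1 : ∀ n ∈ op N, DD θ N n L ≤ 2 * N * (∫ v in L..M, gg v * err n v) +
        8 * N * (Real.exp (-L) / L) * err n (L + 1) := by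
      intro n hn
      have hn1 := one_le_op hn
      have hn2 : (n : ℝ) ≤ 2 * N := by exact_mod_cast (mem_op.1 hn).1.2
      unfold DD
      have he : 0 ≤ Real.exp (-L) / L * err n (L + 1) := mul_nonneg (by positivity) (err_nonneg _ _)
      rw [abs_of_nonneg (mul_nonneg (by linarith) (hIn n)), mul_assoc (4 * ((n : ℝ) - 1)),
        abs_of_nonneg (mul_nonneg (by linarith) he), mul_assoc (8 * (N : ℝ))]
      have h2 : ((n : ℝ) - 1) * (∫ v in L..M, gg v * err n v) ≤ 2 * N * (∫ v in L..M, gg v * err n v) :=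
        mul_le_mul_of_nonneg_right (by linarith) (hIn n)
      have h3 : 4 * ((n : ℝ) - 1) * (Real.exp (-L) / L * err n (L + 1)) ≤
          8 * N * (Real.exp (-L) / L * err n (L + 1)) := mul_le_mul_of_nonneg_right (by linarith) he
      linarith
    refine (sum_le_sum h1).trans ?_
    rw [sum_add_distrib, ← mul_sum, ← mul_sum]
    have h4 : ∑ n ∈ op N, ∫ v in L..M, gg v * err n v ≤ 5 / 2 / L ^ 2 := by
      rw [← intervalIntegral.integral_finsetSum hint]
      refine le_trans (intervalIntegral.integral_mono_on hLM ?_ ?_ ?_) (int_err3 hL1 hLM)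
      · have h5 : ContinuousOn (fun v => ∑ n ∈ op N, gg v * err n v) (Set.uIcc L M) :=
          continuousOn_finsetSum _ fun n hn => hcont n hn
        exact h5.intervalIntegrable
      · apply ContinuousOn.intervalIntegrable
        rw [Set.uIcc_of_le hLM]
        refine (A1.gg_cont hL1).mul (ContinuousOn.div (by fun_prop) (by fun_prop) fun x hx => ?_)
        have : 0 < x := by linarith [hx.1]
        positivity
      · intro v hv
        rw [← mul_sum]
        exact mul_le_mul_of_nonneg_left (hbvv v hv.1) (A1.gg_nonneg (by linarith [hv.1]))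
    have h6 : ∑ n ∈ op N, err n (L + 1) ≤ Real.exp (L + 1) / (L + 1) ^ 3 := hbvv (L + 1) (by linarith)
    have h7 : 8 * (N : ℝ) * (Real.exp (-L) / L) * ∑ n ∈ op N, err n (L + 1) ≤ 24 * N / L ^ 2 := by
      have h8 : 8 * (N : ℝ) * (Real.exp (-L) / L) * ∑ n ∈ op N, err n (L + 1) ≤
          8 * (N : ℝ) * (Real.exp (-L) / L) * (Real.exp (L + 1) / (L + 1) ^ 3) :=
        mul_le_mul_of_nonneg_left h6 (by positivity)
      have h9 : 8 * (N : ℝ) * (Real.exp (-L) / L) * (Real.exp (L + 1) / (L + 1) ^ 3) =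
          8 * N * (Real.exp (-L) * Real.exp (L + 1)) / (L * (L + 1) ^ 3) := by
        field_simp
      rw [h9, ← Real.exp_add, show -L + (L + 1) = 1 by ring] at h8
      refine h8.trans ?_
      have h10 : L ^ 2 ≤ L * (L + 1) ^ 3 := by nlinarith [sq_nonneg L, pow_pos hL0 3, pow_pos hL0 2]
      calc 8 * (N : ℝ) * Real.exp 1 / (L * (L + 1) ^ 3) ≤ 24 * N / (L * (L + 1) ^ 3) := by
            apply div_le_div_of_nonneg_right _ (by positivity)
            nlinarith
        _ ≤ 24 * N / L ^ 2 := div_le_div_of_nonneg_left (by positivity) (by positivity) h10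
    have h11 : 2 * (N : ℝ) * ∑ n ∈ op N, ∫ v in L..M, gg v * err n v ≤ 5 * N / L ^ 2 := by
      calc 2 * (N : ℝ) * ∑ n ∈ op N, ∫ v in L..M, gg v * err n v ≤ 2 * N * (5 / 2 / L ^ 2) :=
            mul_le_mul_of_nonneg_left h4 (by positivity)
        _ = 5 * N / L ^ 2 := by ring
    have h12 : 5 * (N : ℝ) / L ^ 2 + 24 * N / L ^ 2 ≤ (Cm + Cp + 30) * N / L ^ 2 := by
      rw [← add_div]
      apply div_le_div_of_nonneg_right _ (by positivity)
      nlinarith
    linarith
  · -- the lower bound for a single `n`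
    intro n hn hD
    have hn1 := one_le_op hn
    obtain ⟨⟨_, _⟩, hnp, hn2⟩ := mem_op.1 hn
    have hnpos : 1 ≤ n := hnp.one_lt.le
    have hodd : Odd n := hnp.odd_of_ne_two hn2
    have htot : Nat.totient (2 * n) = n - 1 := by
      rw [Nat.totient_mul (Nat.coprime_two_left.2 hodd), Nat.totient_two, one_mul, Nat.totient_prime hnp]
    have hn1' : (1 : ℝ) < n := by exact_mod_cast hnp.one_lt
    have hcast : ((n - 1 : ℕ) : ℝ) = (n : ℝ) - 1 := by
      rw [Nat.cast_sub hnp.one_lt.le, Nat.cast_one]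
    have hn0 : (0 : ℝ) < (n : ℝ) - 1 := by linarith
    -- the weight
    have hW : ∀ v, W1 (fun m => ((n : ℝ) - 1) * va n m) v = ((n : ℝ) - 1) *
        Pool.Agent.H410R2.psiLogAP (Real.exp v) (2 * n) 1 := by
      intro v
      rw [← W1_va hnpos]
      unfold W1
      rw [mul_sum]
      refine sum_congr rfl fun m _ => by ring
    have herr : ∀ v, |((n : ℝ) - 1) * Pool.Agent.H410R2.psiLogAP (Real.exp v) (2 * n) 1 -
        Pool.Agent.H410R2.psiLog1 (Real.exp v)| = ((n : ℝ) - 1) * err n v := by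
      intro v
      unfold err
      rw [htot, hcast, ← abs_of_pos hn0, ← abs_mul, abs_of_pos hn0]
      congr 1
      field_simp
    have hlow := A1_lower (fun m => ((n : ℝ) - 1) * va n m) (fun m => mul_nonneg hn0.le (va_nonneg n m)) L M hL1 hLM
    have hppn := hpp N n hn L M hL hLM
    have hmn := hmain L M hLv₂ hLM
    -- the integral
    have hi1 : IntervalIntegrable (fun v => gg v * Pool.Agent.H410R2.psiLog1 (Real.exp v)) volume L M := by
      apply ContinuousOn.intervalIntegrable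
      rw [Set.uIcc_of_le hLM]
      exact (A1.gg_cont hL1).mul ((W1_cont (fun m => vonMangoldt m) L M).congr fun v _ => (W1_vm v).symm)
    have hi2 : IntervalIntegrable (fun v => gg v * W1 (fun m => ((n : ℝ) - 1) * va n m) v) volume L M := by
      apply ContinuousOn.intervalIntegrable
      rw [Set.uIcc_of_le hLM]
      exact (A1.gg_cont hL1).mul (W1_cont _ L M)
    have hi3 := hint n hn
    have h1 : (∫ v in L..M, gg v * Pool.Agent.H410R2.psiLog1 (Real.exp v)) -
        ((n : ℝ) - 1) * (∫ v in L..M, gg v * err n v) ≤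
        ∫ v in L..M, gg v * W1 (fun m => ((n : ℝ) - 1) * va n m) v := by
      rw [← intervalIntegral.integral_const_mul, ← intervalIntegral.integral_sub hi1 (hi3.const_mul _)]
      refine intervalIntegral.integral_mono_on hLM (hi1.sub (hi3.const_mul _)) hi2 fun v hv => ?_
      have h2 := (abs_le.1 (herr v).le).1
      have h3 := A1.gg_nonneg (show 0 ≤ v by linarith [hv.1])
      rw [hW v]
      have h4 : gg v * Pool.Agent.H410R2.psiLog1 (Real.exp v) - ((n : ℝ) - 1) * (gg v * err n v) =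
          gg v * (Pool.Agent.H410R2.psiLog1 (Real.exp v) - ((n : ℝ) - 1) * err n v) := by ring
      rw [h4]
      exact mul_le_mul_of_nonneg_left (by linarith) h3
    -- the boundary term
    have h5 : 4 * Real.exp (-L) / L * W1 (fun m => ((n : ℝ) - 1) * va n m) (L + 1) ≤
        24 + 4 * ((n : ℝ) - 1) * (Real.exp (-L) / L) * err n (L + 1) := by
      have h6 := (abs_le.1 (herr (L + 1)).le).2
      have h7 := hvm (L + 1) (by linarith)
      rw [W1_vm] at h7
      have h8 : W1 (fun m => ((n : ℝ) - 1) * va n m) (L + 1) ≤ 2 * Real.exp (L + 1) + ((n : ℝ) - 1) * err n (L + 1) := by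
        rw [hW]
        linarith
      have h9 : 4 * Real.exp (-L) / L * W1 (fun m => ((n : ℝ) - 1) * va n m) (L + 1) ≤
          4 * Real.exp (-L) / L * (2 * Real.exp (L + 1) + ((n : ℝ) - 1) * err n (L + 1)) :=
        mul_le_mul_of_nonneg_left h8 (by positivity)
      have h10 : 4 * Real.exp (-L) / L * (2 * Real.exp (L + 1) + ((n : ℝ) - 1) * err n (L + 1)) =
          8 * (Real.exp (-L) * Real.exp (L + 1)) / L + 4 * ((n : ℝ) - 1) * (Real.exp (-L) / L) * err n (L + 1) := by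
        ring
      rw [h10, ← Real.exp_add, show -L + (L + 1) = 1 by ring] at h9
      have h11 : 8 * Real.exp 1 / L ≤ 24 := by
        rw [div_le_iff₀ hL0]
        nlinarith
      linarith
    have hD' : ((n : ℝ) - 1) * (∫ v in L..M, gg v * err n v) +
        4 * ((n : ℝ) - 1) * (Real.exp (-L) / L) * err n (L + 1) ≤ 1 := by
      refine le_trans (add_le_add (le_abs_self _) (le_abs_self _)) hD
    have hpp' : ∑ m ∈ Ioc ⌊Real.exp L⌋₊ ⌊Real.exp M⌋₊, (((n : ℝ) - 1) * va n m) / (m * Real.log m) ≤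
        (∑ p ∈ (pz (Real.exp M)).filter (fun p => p % n = 1), ((n : ℝ) - 1) / p) + Cp := hppn
    have hMN : Real.log (θ * N / L) = Real.log (M / L) := rfl
    rw [hMN]
    linarith

end Pool.Agent.L5helper86.RB
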