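import Pool.Agent.L5helper15.RB.V

/-!
# The sums over primes `p ≡ 1` modulo `n` in `(e ^ (θ n), e ^ (θ' n)]` (written by helper15 for helper86)
-/

set_option autoImplicit false

open Finset MeasureTheory ProbabilityTheory Filter Topology
open ArithmeticFunction (vonMangoldt)

namespace Pool.Agent.L5helper86.RB

namespace Wh

open Pool.Agent.H410R2 (psiLogAP psiLog1)
open A2h Vh

lemma big_sq {y : ℝ} (hy : 0 ≤ y) : y ^ 2 / 2 ≤ Real.exp y := by
  have := Real.quadratic_le_exp_of_nonneg hy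
  linarith

/-- Siegel-Walfisz for one modulus -/
lemma sw {θ : ℝ} (hθ : 0 < θ) : ∃ n1 : ℕ, ∀ n : ℕ, n1 ≤ n → n.Prime → ∀ v : ℝ, θ * n ≤ v →
    err n v ≤ Real.exp v / v ^ 3 := by
  obtain ⟨X₀, hX⟩ := bvap' 2 (by norm_num) 1 le_rfl (1 / 6) (by norm_num) 3
  obtain ⟨a, ha⟩ := exists_nat_ge (X₀ / θ)
  obtain ⟨b, hb⟩ := exists_nat_ge (18 / θ ^ 2)
  refine ⟨max a b, fun n hn hp v hv => ?_⟩
  have hna : X₀ / θ ≤ n := ha.trans (by exact_mod_cast (le_max_left a b).trans hn)
  have hnb : 18 / θ ^ 2 ≤ n := hb.trans (by exact_mod_cast (le_max_right a b).trans hn)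
  have hn0 : (0 : ℝ) < n := by exact_mod_cast hp.pos
  have hXv : X₀ ≤ Real.exp v := by
    rw [div_le_iff₀ hθ] at hna
    have := Real.add_one_le_exp v
    linarith
  have hroot : (n : ℝ) ≤ Real.exp v ^ ((1 : ℝ) / 2 - 1 / 6) := by
    rw [show ((1 : ℝ) / 2 - 1 / 6) = 1 / 3 by norm_num, ← Real.exp_mul]
    have h1 : (θ * n / 3) ^ 2 / 2 ≤ Real.exp (θ * n / 3) := big_sq (by positivity)
    have h2 : Real.exp (θ * n / 3) ≤ Real.exp (v * (1 / 3)) := Real.exp_le_exp.2 (by linarith)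
    have h3 : (n : ℝ) ≤ (θ * n / 3) ^ 2 / 2 := by
      rw [div_le_iff₀ (by positivity)] at hnb
      have h4 : (θ * n / 3) ^ 2 / 2 = (n * θ ^ 2) * n / 18 := by ring
      rw [h4, le_div_iff₀ (by norm_num)]
      nlinarith
    linarith
  have h := hX (Real.exp v) hXv (fun _ => 1)
  simp only [one_pow, one_mul, Real.log_exp] at h
  refine le_trans ?_ h
  have hmem : n ∈ (Icc 1 ⌊Real.exp v ^ ((1 : ℝ) / 2 - 1 / 6)⌋₊).filter
      (fun q => Squarefree q ∧ (1 : ℕ).Coprime (2 * q)) := by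
    rw [mem_filter, mem_Icc]
    exact ⟨⟨hp.one_lt.le, Nat.le_floor hroot⟩, hp.squarefree, Nat.coprime_one_left _⟩
  exact single_le_sum (f := fun q => |psiLogAP (Real.exp v) (2 * q) 1 -
    psiLog1 (Real.exp v) / (Nat.totient (2 * q) : ℝ)|) (fun _ _ => abs_nonneg _) hmem

lemma W_close {n : ℕ} (hnp : n.Prime) (hn2 : n ≠ 2) (v : ℝ) :
    |W1 (fun m => ((n : ℝ) - 1) * va n m) v - psiLog1 (Real.exp v)| = ((n : ℝ) - 1) * err n v := by
  have hodd : Odd n := hnp.odd_of_ne_two hn2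
  have htot : Nat.totient (2 * n) = n - 1 := by
    rw [Nat.totient_mul (Nat.coprime_two_left.2 hodd), Nat.totient_two, one_mul, Nat.totient_prime hnp]
  have hn1' : (1 : ℝ) < n := by exact_mod_cast hnp.one_lt
  have hcast : ((n - 1 : ℕ) : ℝ) = (n : ℝ) - 1 := by
    rw [Nat.cast_sub hnp.one_lt.le, Nat.cast_one]
  have hn0 : (0 : ℝ) < (n : ℝ) - 1 := by linarith
  have hW : W1 (fun m => ((n : ℝ) - 1) * va n m) v = ((n : ℝ) - 1) * psiLogAP (Real.exp v) (2 * n) 1 := by
    rw [← W1_va hnp.one_lt.le]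
    unfold W1
    rw [mul_sum]
    refine sum_congr rfl fun m _ => by ring
  rw [hW]
  unfold err
  rw [htot, hcast, ← abs_of_pos hn0, ← abs_mul, abs_of_pos hn0]
  congr 1
  field_simp

/-- the main term -/
lemma main_int {δ : ℝ} (hδ : 0 < δ) (hδ1 : δ ≤ 1) : ∃ v₂ : ℝ, ∀ L M : ℝ, v₂ ≤ L → 1 ≤ L → L ≤ M →
    |(∫ v in L..M, gg v * psiLog1 (Real.exp v)) - Real.log (M / L)| ≤ (M - L) * (δ / L + 8 / L ^ 2) := by
  have h1 : ∀ᶠ X : ℝ in atTop, |psiLog1 X / X - 1| < δ := by
    have h := (Metric.tendsto_nhds.1 Pool.Agent.H732R2.pntLog) δ hδ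
    filter_upwards [h] with X hX
    rwa [Real.dist_eq] at hX
  obtain ⟨v₂, hv₂⟩ := eventually_atTop.1 (Real.tendsto_exp_atTop.eventually h1)
  refine ⟨v₂, fun L M hL hL1 hLM => ?_⟩
  have hL0 : 0 < L := by linarith
  have hM0 : 0 < M := by linarith
  have hi1 : IntervalIntegrable (fun v => gg v * psiLog1 (Real.exp v)) volume L M := by
    apply ContinuousOn.intervalIntegrable
    rw [Set.uIcc_of_le hLM]
    exact (A1.gg_cont hL1).mul ((W1_cont (fun m => vonMangoldt m) L M).congr fun v _ => (W1_vm v).symm)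
  have hi2 : IntervalIntegrable (fun v : ℝ => 1 / v) volume L M := by
    apply ContinuousOn.intervalIntegrable
    rw [Set.uIcc_of_le hLM]
    refine ContinuousOn.div (by fun_prop) (by fun_prop) fun x hx => ?_
    have : 0 < x := by linarith [hx.1]
    exact this.ne'
  rw [← integral_one_div_of_pos hL0 hM0, ← intervalIntegral.integral_sub hi1 hi2]
  have h2 : ∀ v ∈ Set.uIoc L M, ‖gg v * psiLog1 (Real.exp v) - 1 / v‖ ≤ δ / L + 8 / L ^ 2 := by
    intro v hv
    rw [Set.uIoc_of_le hLM] at hv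
    have hvL : L ≤ v := hv.1.le
    have hv0 : 0 < v := by linarith
    have hv1 : 1 ≤ v := by linarith
    have hR := (hv₂ v (hL.trans hvL)).le
    set R := psiLog1 (Real.exp v) / Real.exp v with hRdef
    have hpsi : psiLog1 (Real.exp v) = Real.exp v * R := by
      rw [hRdef]
      field_simp
    obtain ⟨hRa, hRb⟩ := abs_le.1 hR
    have h3 : gg v * psiLog1 (Real.exp v) - 1 / v = (1 / v) * (R - 1) + (2 / v ^ 2 + 2 / v ^ 3) * R := by
      rw [hpsi]
      unfold gg
      have h4 : Real.exp (-v) * (1 / v + 2 / v ^ 2 + 2 / v ^ 3) * (Real.exp v * R) =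
          (Real.exp (-v) * Real.exp v) * ((1 / v + 2 / v ^ 2 + 2 / v ^ 3) * R) := by ring
      rw [h4, ← Real.exp_add, neg_add_cancel, Real.exp_zero]
      ring
    rw [Real.norm_eq_abs, h3]
    have h5 : |(1 / v) * (R - 1)| ≤ δ / L := by
      rw [abs_mul, abs_of_pos (by positivity : (0 : ℝ) < 1 / v)]
      calc 1 / v * |R - 1| ≤ 1 / L * δ :=
            mul_le_mul (one_div_le_one_div_of_le hL0 hvL) hR (abs_nonneg _) (by positivity)
        _ = δ / L := by ring
    have h6 : |(2 / v ^ 2 + 2 / v ^ 3) * R| ≤ 8 / L ^ 2 := by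
      have hRabs : |R| ≤ 2 := abs_le.2 ⟨by linarith, by linarith⟩
      have h7 : 2 / v ^ 2 + 2 / v ^ 3 ≤ 4 / L ^ 2 := by
        have h8 : 2 / v ^ 2 ≤ 2 / L ^ 2 :=
          div_le_div_of_nonneg_left (by norm_num) (by positivity) (pow_le_pow_left₀ hL0.le hvL 2)
        have h9 : 2 / v ^ 3 ≤ 2 / L ^ 2 := by
          apply div_le_div_of_nonneg_left (by norm_num) (by positivity)
          calc L ^ 2 ≤ v ^ 2 := pow_le_pow_left₀ hL0.le hvL 2
            _ ≤ v ^ 3 := pow_le_pow_right₀ hv1 (by norm_num)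
        have h10 : 4 / L ^ 2 = 2 / L ^ 2 + 2 / L ^ 2 := by ring
        linarith
      rw [abs_mul, abs_of_pos (by positivity : (0 : ℝ) < 2 / v ^ 2 + 2 / v ^ 3)]
      calc (2 / v ^ 2 + 2 / v ^ 3) * |R| ≤ (4 / L ^ 2) * 2 :=
            mul_le_mul h7 hRabs (abs_nonneg _) (by positivity)
        _ = 8 / L ^ 2 := by ring
    exact (abs_add_le _ _).trans (add_le_add h5 h6)
  have h11 := intervalIntegral.norm_integral_le_of_norm_le_const h2
  rw [Real.norm_eq_abs, abs_of_nonneg (by linarith : 0 ≤ M - L)] at h11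
  linarith

end Wh

open Wh Vh A2h in
theorem rec_window (θ θ' : ℝ) (hθ : 0 < θ) (hθ' : θ < θ') : ∀ ε : ℝ, 0 < ε → ∃ n0 : ℕ, ∀ n : ℕ, n0 ≤ n →
    n.Prime → |(∑ p ∈ (pz (Real.exp (θ' * n))).filter (fun p : ℕ => Real.exp (θ * n) < (p : ℝ) ∧ p % n = 1),
      ((n : ℝ) - 1) / p) - Real.log (θ' / θ)| ≤ ε := by
  intro ε hε
  obtain ⟨n1, hsw⟩ := sw hθ
  obtain ⟨v₁, hvm⟩ := vm_bound
  set S : ℝ := ∑' x, ppf x with hSdef
  have hS : 0 ≤ S := tsum_nonneg ppf_nonneg
  set K : ℝ := θ' / θ - 1 with hKdef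
  have hK : 0 < K := by
    rw [hKdef, sub_pos, one_lt_div hθ]
    exact hθ'
  set δ : ℝ := min 1 (ε / (2 * K)) with hδdef
  have hδ : 0 < δ := lt_min one_pos (by positivity)
  have hKδ : K * δ ≤ ε / 2 := by
    have h1 : δ ≤ ε / (2 * K) := min_le_right _ _
    have h2 := mul_le_mul_of_nonneg_left h1 hK.le
    have h3 : K * (ε / (2 * K)) = ε / 2 := by field_simp
    rwa [h3] at h2
  obtain ⟨v₂, hmain⟩ := main_int hδ (min_le_left _ _)
  set B : ℝ := 5 * K / θ + 8 * K + 12 * (2 + 1 / θ) + 18 * S / θ with hB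
  have hB0 : 0 ≤ B := by positivity
  obtain ⟨a, ha⟩ := exists_nat_ge ((max (max v₁ v₂) 1) / θ)
  obtain ⟨b, hb⟩ := exists_nat_ge (2 * B / ε / θ)
  refine ⟨max (max n1 3) (max a b), fun n hn hnp => ?_⟩
  have hn1 : n1 ≤ n := le_trans (le_trans (le_max_left _ _) (le_max_left _ _)) hn
  have hn3 : 3 ≤ n := le_trans (le_trans (le_max_right _ _) (le_max_left _ _)) hn
  have hna : a ≤ n := le_trans (le_trans (le_max_left _ _) (le_max_right _ _)) hn
  have hnb : b ≤ n := le_trans (le_trans (le_max_right _ _) (le_max_right _ _)) hn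
  have hn2 : n ≠ 2 := by omega
  have hnr : (3 : ℝ) ≤ n := by exact_mod_cast hn3
  have hn0 : (0 : ℝ) < (n : ℝ) - 1 := by linarith
  set L : ℝ := θ * n with hLdef
  set M : ℝ := θ' * n with hMdef
  have hLmax : max (max v₁ v₂) 1 ≤ L := by
    have h1 : (max (max v₁ v₂) 1) / θ ≤ n := ha.trans (by exact_mod_cast hna)
    rw [div_le_iff₀ hθ] at h1
    linarith
  have hLv₁ : v₁ ≤ L := ((le_max_left _ _).trans (le_max_left _ _)).trans hLmax
  have hLv₂ : v₂ ≤ L := ((le_max_right _ _).trans (le_max_left _ _)).trans hLmax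
  have hL1 : 1 ≤ L := (le_max_right _ _).trans hLmax
  have hL0 : 0 < L := by linarith
  have hBL : B / L ≤ ε / 2 := by
    have h1 : 2 * B / ε / θ ≤ n := hb.trans (by exact_mod_cast hnb)
    rw [div_le_iff₀ hθ, div_le_iff₀ hε] at h1
    rw [div_le_iff₀ hL0]
    linarith
  have hLM : L ≤ M := mul_le_mul_of_nonneg_right hθ'.le (by linarith)
  have hM0 : 0 < M := by linarith
  have hML : M - L = K * L := by
    rw [hKdef, hLdef, hMdef]
    field_simp
  have hMLr : M / L = θ' / θ := by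
    rw [hLdef, hMdef]
    exact mul_div_mul_right _ _ (by linarith)
  have hexp1 : Real.exp 1 < 3 := by linarith [Real.exp_one_lt_d9]
  -- the error terms
  have herr : ∀ v, L ≤ v → ((n : ℝ) - 1) * err n v ≤ Real.exp v / (θ * v ^ 2) := by
    intro v hv
    have hv0 : 0 < v := by linarith
    have h1 := hsw n hn1 hnp v hv
    have h2 : (n : ℝ) - 1 ≤ v / θ := by
      rw [le_div_iff₀ hθ]
      nlinarith
    calc ((n : ℝ) - 1) * err n v ≤ (v / θ) * (Real.exp v / v ^ 3) :=
          mul_le_mul h2 h1 (err_nonneg _ _) (by positivity)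
      _ = Real.exp v / (θ * v ^ 2) := by field_simp
  set w : ℕ → ℝ := fun m => ((n : ℝ) - 1) * va n m with hw
  have hw0 : ∀ m, 0 ≤ w m := fun m => mul_nonneg hn0.le (va_nonneg n m)
  have hclose : ∀ v, |W1 w v - Pool.Agent.H410R2.psiLog1 (Real.exp v)| = ((n : ℝ) - 1) * err n v :=
    W_close hnp hn2
  have hi1 : IntervalIntegrable (fun v => gg v * Pool.Agent.H410R2.psiLog1 (Real.exp v)) volume L M := by
    apply ContinuousOn.intervalIntegrable
    rw [Set.uIcc_of_le hLM]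
    exact (A1.gg_cont hL1).mul ((W1_cont (fun m => vonMangoldt m) L M).congr fun v _ => (W1_vm v).symm)
  have hi2 : IntervalIntegrable (fun v => gg v * W1 w v) volume L M := by
    apply ContinuousOn.intervalIntegrable
    rw [Set.uIcc_of_le hLM]
    exact (A1.gg_cont hL1).mul (W1_cont _ L M)
  have hD1 : |(∫ v in L..M, gg v * W1 w v) - ∫ v in L..M, gg v * Pool.Agent.H410R2.psiLog1 (Real.exp v)| ≤
      5 * K / θ / L := by
    rw [← intervalIntegral.integral_sub hi2 hi1]
    have h1 : ∀ v ∈ Set.uIoc L M, ‖gg v * W1 w v - gg v * Pool.Agent.H410R2.psiLog1 (Real.exp v)‖ ≤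
        5 / (θ * L ^ 2) := by
      intro v hv
      rw [Set.uIoc_of_le hLM] at hv
      have hvL : L ≤ v := hv.1.le
      have hv0 : 0 < v := by linarith
      have hv1 : 1 ≤ v := by linarith
      rw [← mul_sub, Real.norm_eq_abs, abs_mul, hclose v, abs_of_nonneg (A1.gg_nonneg hv0.le)]
      have h2 : gg v * (((n : ℝ) - 1) * err n v) ≤ gg v * (Real.exp v / (θ * v ^ 2)) :=
        mul_le_mul_of_nonneg_left (herr v hvL) (A1.gg_nonneg hv0.le)
      refine h2.trans ?_
      unfold gg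
      have h3 : Real.exp (-v) * (1 / v + 2 / v ^ 2 + 2 / v ^ 3) * (Real.exp v / (θ * v ^ 2)) =
          (Real.exp (-v) * Real.exp v) * (1 / v + 2 / v ^ 2 + 2 / v ^ 3) * (1 / (θ * v ^ 2)) := by ring
      rw [h3, ← Real.exp_add, neg_add_cancel, Real.exp_zero, one_mul]
      have h4 : 1 / v + 2 / v ^ 2 + 2 / v ^ 3 ≤ 5 := by
        have h5 : 1 / v ≤ 1 := by rw [div_le_one hv0]; exact hv1
        have h6 : 2 / v ^ 2 ≤ 2 := by
          rw [div_le_iff₀ (by positivity)]
          nlinarith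
        have h7 : 2 / v ^ 3 ≤ 2 := by
          rw [div_le_iff₀ (by positivity)]
          have : 1 ≤ v ^ 3 := one_le_pow₀ hv1
          linarith
        linarith
      have h8 : 1 / (θ * v ^ 2) ≤ 1 / (θ * L ^ 2) := by
        apply one_div_le_one_div_of_le (by positivity)
        exact mul_le_mul_of_nonneg_left (pow_le_pow_left₀ hL0.le hvL 2) hθ.le
      calc (1 / v + 2 / v ^ 2 + 2 / v ^ 3) * (1 / (θ * v ^ 2)) ≤ 5 * (1 / (θ * L ^ 2)) :=
            mul_le_mul h4 h8 (by positivity) (by norm_num)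
        _ = 5 / (θ * L ^ 2) := by ring
    have h9 := intervalIntegral.norm_integral_le_of_norm_le_const h1
    rw [Real.norm_eq_abs, abs_of_nonneg (by linarith : 0 ≤ M - L), hML] at h9
    refine h9.trans (le_of_eq ?_)
    field_simp
  have hD2 := hmain L M hLv₂ hL1 hLM
  rw [hML, hMLr] at hD2
  have hD2' : K * L * (δ / L + 8 / L ^ 2) = K * δ + 8 * K / L := by field_simp
  rw [hD2'] at hD2
  -- the boundary terms
  have hbd : ∀ T, L ≤ T → 4 * Real.exp (-T) / T * W1 w (T + 1) ≤ 12 * (2 + 1 / θ) / L := by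
    intro T hT
    have hT0 : 0 < T := by linarith
    have h1 := (abs_le.1 (hclose (T + 1)).le).2
    have h2 := hvm (T + 1) (by linarith)
    rw [W1_vm] at h2
    have h3 := herr (T + 1) (by linarith)
    have h4 : Real.exp (T + 1) / (θ * (T + 1) ^ 2) ≤ Real.exp (T + 1) * (1 / θ) := by
      rw [div_le_iff₀ (by positivity)]
      have h5 : (1 : ℝ) ≤ (T + 1) ^ 2 := by nlinarith
      have h6 : Real.exp (T + 1) * (1 / θ) * (θ * (T + 1) ^ 2) = Real.exp (T + 1) * (T + 1) ^ 2 := by field_simp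
      rw [h6]
      have := Real.exp_pos (T + 1)
      nlinarith
    have h7 : W1 w (T + 1) ≤ Real.exp (T + 1) * (2 + 1 / θ) := by
      have h8 : Real.exp (T + 1) * (2 + 1 / θ) = 2 * Real.exp (T + 1) + Real.exp (T + 1) * (1 / θ) := by ring
      rw [h8]
      linarith
    have h9 : 4 * Real.exp (-T) / T * W1 w (T + 1) ≤ 4 * Real.exp (-T) / T * (Real.exp (T + 1) * (2 + 1 / θ)) :=
      mul_le_mul_of_nonneg_left h7 (by positivity)
    have h10 : 4 * Real.exp (-T) / T * (Real.exp (T + 1) * (2 + 1 / θ)) =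
        4 * (Real.exp (-T) * Real.exp (T + 1)) * (2 + 1 / θ) / T := by ring
    rw [h10, ← Real.exp_add, show -T + (T + 1) = 1 by ring] at h9
    refine h9.trans ?_
    have h11 : 4 * Real.exp 1 * (2 + 1 / θ) ≤ 12 * (2 + 1 / θ) :=
      mul_le_mul_of_nonneg_right (by linarith) (by positivity)
    exact (div_le_div_of_nonneg_right h11 hT0.le).trans
      (div_le_div_of_nonneg_left (by positivity) hL0 hT)
  have hU := A1_upper w hw0 L M hL1 hLM
  have hLo := A1_lower w hw0 L M hL1 hLM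
  have hbM := hbd M hLM
  have hbL := hbd L le_rfl
  -- the sum over the prime powers
  set I := Ioc ⌊Real.exp L⌋₊ ⌊Real.exp M⌋₊ with hI
  have hmem : ∀ m ∈ I, Real.exp L < m ∧ (m : ℝ) ≤ Real.exp M := by
    intro m hm
    obtain ⟨c, d⟩ := mem_Ioc.1 hm
    exact ⟨Nat.lt_of_floor_lt c, (Nat.le_floor_iff (Real.exp_pos M).le).1 d⟩
  have hexpL : 1 < Real.exp L := by
    have := Real.add_one_le_exp L
    linarith
  have hexpL2 : 2 ≤ Real.exp L := by
    have := Real.add_one_le_exp L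
    linarith
  have hsplit : ∑ m ∈ I, w m / (m * Real.log m) =
      (∑ p ∈ (pz (Real.exp M)).filter (fun p : ℕ => Real.exp L < (p : ℝ) ∧ p % n = 1), ((n : ℝ) - 1) / p) +
      ∑ m ∈ I.filter (fun m => ¬ m.Prime), w m / (m * Real.log m) := by
    rw [← Finset.sum_filter_add_sum_filter_not I (fun m => m.Prime)]
    congr 1
    have hset : (pz (Real.exp M)).filter (fun p : ℕ => Real.exp L < (p : ℝ) ∧ p % n = 1) =
        (I.filter (fun m => m.Prime)).filter (fun m => m % (2 * n) = 1) := by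
      ext p
      rw [mem_filter, mem_filter, mem_filter, mem_pz]
      constructor
      · rintro ⟨⟨h1, h2⟩, h3, h4⟩
        refine ⟨⟨mem_Ioc.2 ⟨(Nat.floor_lt (Real.exp_pos L).le).2 h3, Nat.le_floor h2⟩, h1⟩, ?_⟩
        have hp2 : p % 2 = 1 := by
          rcases h1.eq_two_or_odd with h5 | h5
          · exfalso
            rw [h5] at h3
            push_cast at h3
            linarith
          · exact h5
        have hodd : Odd n := hnp.odd_of_ne_two hn2
        have h5 : p ≡ 1 [MOD 2] := by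
          unfold Nat.ModEq
          rw [hp2]
        have h6 : p ≡ 1 [MOD n] := by
          unfold Nat.ModEq
          rw [h4, Nat.mod_eq_of_lt hnp.one_lt]
        have h7 := (Nat.modEq_and_modEq_iff_modEq_mul (Nat.coprime_two_left.2 hodd)).1 ⟨h5, h6⟩
        unfold Nat.ModEq at h7
        rw [h7]
        exact Nat.mod_eq_of_lt (by omega)
      · rintro ⟨⟨h1, h2⟩, h3⟩
        obtain ⟨h4, h5⟩ := hmem p h1
        refine ⟨⟨h2, h5⟩, h4, ?_⟩
        rw [← Nat.mod_mod_of_dvd p (Dvd.intro_left 2 rfl : n ∣ 2 * n), h3]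
        exact Nat.mod_eq_of_lt hnp.one_lt
    rw [hset, Finset.sum_filter (fun m => m % (2 * n) = 1)]
    refine Finset.sum_congr rfl fun m hm => ?_
    obtain ⟨hm1, hm2⟩ := mem_filter.1 hm
    simp only [hw, va]
    split_ifs with hc
    · rw [ArithmeticFunction.vonMangoldt_apply_prime hm2]
      have hlog : Real.log m ≠ 0 := (Real.log_pos (by exact_mod_cast hm2.one_lt)).ne'
      rw [mul_comm (m : ℝ), mul_comm ((n : ℝ) - 1), mul_div_mul_left _ _ hlog]
    · simp
  have hpp0 : 0 ≤ ∑ m ∈ I.filter (fun m => ¬ m.Prime), w m / (m * Real.log m) :=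
    sum_nonneg fun m _ => div_nonneg (hw0 m) (mul_nonneg (Nat.cast_nonneg _) (Real.log_natCast_nonneg _))
  have hpp1 : ∑ m ∈ I.filter (fun m => ¬ m.Prime), w m / (m * Real.log m) ≤ 18 * S / θ / L := by
    have e1 : ∑ m ∈ I.filter (fun m => ¬ m.Prime), w m / (m * Real.log m) ≤
        ∑ m ∈ (I.filter (fun m => ¬ m.Prime)).filter (fun m => IsPrimePow m),
          (n * Real.exp (-(L / 3))) * (m : ℝ) ^ (-(2 / 3) : ℝ) := by
      rw [Finset.sum_filter (fun m => IsPrimePow m)]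
      refine Finset.sum_le_sum fun m hm => ?_
      obtain ⟨hm1, hm2⟩ := mem_filter.1 hm
      obtain ⟨hm3, _⟩ := hmem m hm1
      have hm1r : (1 : ℝ) < m := by linarith
      have hm0 : (0 : ℝ) < m := by linarith
      have hlog : 0 < Real.log m := Real.log_pos hm1r
      simp only [hw, va]
      split_ifs with hc hpp hpp
      · have hΛ : ArithmeticFunction.vonMangoldt m ≤ Real.log m := ArithmeticFunction.vonMangoldt_le_log
        have hΛ0 : 0 ≤ ArithmeticFunction.vonMangoldt m := ArithmeticFunction.vonMangoldt_nonneg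
        have hpow : (m : ℝ) ^ (-(2 / 3) : ℝ) = (m : ℝ) ^ ((1 / 3) : ℝ) / m := by
          rw [show (-(2 / 3) : ℝ) = 1 / 3 - 1 by norm_num, Real.rpow_sub_one hm0.ne']
        have hexp : Real.exp (L / 3) ≤ (m : ℝ) ^ ((1 / 3) : ℝ) := by
          rw [Real.rpow_def_of_pos hm0]
          refine Real.exp_le_exp.2 ?_
          have : L ≤ Real.log m := (Real.le_log_iff_exp_le hm0).2 hm3.le
          linarith
        have h1 : (1 : ℝ) ≤ Real.exp (-(L / 3)) * (m : ℝ) ^ ((1 / 3) : ℝ) := by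
          calc (1 : ℝ) = Real.exp (-(L / 3)) * Real.exp (L / 3) := by
                rw [← Real.exp_add, neg_add_cancel, Real.exp_zero]
            _ ≤ _ := mul_le_mul_of_nonneg_left hexp (Real.exp_pos _).le
        have h2 : ((n : ℝ) - 1) * ArithmeticFunction.vonMangoldt m / (m * Real.log m) ≤ (n : ℝ) * 1 / m := by
          rw [div_le_div_iff₀ (by positivity) hm0]
          have h3 : ((n : ℝ) - 1) * ArithmeticFunction.vonMangoldt m ≤ n * Real.log m :=
            mul_le_mul (by linarith) hΛ hΛ0 (by linarith)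
          nlinarith
        refine h2.trans ?_
        rw [hpow]
        have h4 : (n : ℝ) * Real.exp (-(L / 3)) * ((m : ℝ) ^ ((1 / 3) : ℝ) / m) =
            n * (Real.exp (-(L / 3)) * (m : ℝ) ^ ((1 / 3) : ℝ)) / m := by ring
        rw [h4]
        apply div_le_div_of_nonneg_right _ hm0.le
        exact mul_le_mul_of_nonneg_left h1 (by linarith)
      · rw [ArithmeticFunction.vonMangoldt_eq_zero_iff.2 hpp]
        simp
      · simp only [mul_zero, zero_div]
        positivity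
      · simp
    refine e1.trans ?_
    rw [← mul_sum]
    have e2 := sum_pp_le ((I.filter (fun m => ¬ m.Prime)).filter (fun m => IsPrimePow m)) (by
      intro m hm
      obtain ⟨hm1, hm2⟩ := mem_filter.1 hm
      exact ⟨hm2, (mem_filter.1 hm1).2⟩)
    have e3 : (n : ℝ) * Real.exp (-(L / 3)) ≤ 18 / θ / L := by
      have h1 : (L / 3) ^ 2 / 2 ≤ Real.exp (L / 3) := big_sq (by positivity)
      have h2 : Real.exp (-(L / 3)) ≤ 18 / L ^ 2 := by
        rw [Real.exp_neg, inv_le_comm₀ (Real.exp_pos _) (by positivity), inv_div]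
        linarith
      have h3 : (n : ℝ) = L / θ := by rw [hLdef]; field_simp
      rw [h3]
      calc L / θ * Real.exp (-(L / 3)) ≤ L / θ * (18 / L ^ 2) := mul_le_mul_of_nonneg_left h2 (by positivity)
        _ = 18 / θ / L := by field_simp
    calc (n : ℝ) * Real.exp (-(L / 3)) * ∑ m ∈ (I.filter (fun m => ¬ m.Prime)).filter (fun m => IsPrimePow m),
          (m : ℝ) ^ (-(2 / 3) : ℝ) ≤ 18 / θ / L * S :=
          mul_le_mul e3 e2 (sum_nonneg fun m _ => by positivity) (by positivity)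
      _ = 18 * S / θ / L := by ring
  -- assembly
  have hBsum : B / L = 5 * K / θ / L + 8 * K / L + 12 * (2 + 1 / θ) / L + 18 * S / θ / L := by
    rw [hB]
    ring
  have hp1 : 0 ≤ 18 * S / θ / L := by positivity
  have hp2 : 0 ≤ 5 * K / θ / L := by positivity
  have hp3 : 0 ≤ 12 * (2 + 1 / θ) / L := by positivity
  obtain ⟨hD1a, hD1b⟩ := abs_le.1 hD1
  obtain ⟨hD2a, hD2b⟩ := abs_le.1 hD2
  rw [abs_le]
  constructor
  · linarith
  · linarith

end Pool.Agent.L5helper86.RB
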